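import Pool.Agent.H856R3.GcolUpper

/-!
# Which hop functions preserve polynomiality of generalised colouring numbers?

We prove that a function `k` with `1 ≤ k l ≤ l` has property (P) if and only if it is bounded.

Idea. If `k ≤ K` then, for an order that is optimal for `col_l`, every set `GReach_{k,l}` has at
most `col_l ^ K` elements.

Conversely, for all `h` and `R` we build a finite graph `Y_h` with a set `T_h` of top vertices.
`Y_0` is one vertex. `Y_{h+1}` has bases `B_0, ..., B_{R-1}`, all copies of `Y_h`, nested: below
every choice of top vertices of the outer bases there is a new copy of the next base; for every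
choice `b_0, ..., b_{R-1}` of top vertices there are many disjoint paths `x_0 ... x_{R-1}` with
`x_i` adjacent to `b_i`, and the vertices of these paths are the top vertices of `Y_{h+1}`.
Ordering outer bases before inner ones and all bases before the paths gives
`col_l(Y_h) ≤ l * l + 4 * l + 2` for all `l`, independently of `h` and `R`.
For an arbitrary order, either some vertex strongly reaches many vertices, or there is a path all of
whose vertices come after good vertices `b_0, ..., b_{R-1}` of the bases; starting from the smallest
vertex of this path one reaches each `b_i` in one hop. By induction `h` hops and `h * R` steps reach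
at least `R ^ h` vertices.
-/

namespace Pool.Agent.Results.MP_7edec4_co.BoundedHops

open Pool.Agent.H856R3

/-- A function `k` with `1 ≤ k l ≤ l` has property (P) if and only if it is bounded. -/
theorem result (k : ℕ → ℕ) (hk : ∀ l, 1 ≤ l → 1 ≤ k l ∧ k l ≤ l) :
    PropertyP k ↔ ∃ K, ∀ l, 1 ≤ l → k l ≤ K :=
  ⟨fun h => bounded_of_propertyP k (fun l hl => (hk l hl).2) h,
    fun ⟨K, hK⟩ => propertyP_of_bounded k K hK⟩

end Pool.Agent.Results.MP_7edec4_co.BoundedHops
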